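import Mathlib

set_option autoImplicit false

namespace Pool.Agent.X189.CR

open Filter Topology Finset

/-- The sequence of the convolution recursion. -/
noncomputable def seq (f : ℕ → ℕ → ℝ) (n1 : ℝ) : ℕ → ℝ
  | 0 => 0
  | 1 => n1
  | d + 2 => ∑ i ∈ (Icc 1 (d + 1)).attach,
      f i (d + 2 - i) * seq f n1 i * seq f n1 (d + 2 - i)
termination_by d => d
decreasing_by
  all_goals
    have := Finset.mem_Icc.1 i.2
    omega

theorem seq_rec (f : ℕ → ℕ → ℝ) (n1 : ℝ) (d : ℕ) (hd : 2 ≤ d) :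
    seq f n1 d = ∑ i ∈ Icc 1 (d - 1), f i (d - i) * seq f n1 i * seq f n1 (d - i) := by
  obtain ⟨e, rfl⟩ : ∃ e, d = e + 2 := ⟨d - 2, by omega⟩
  rw [seq]
  exact Finset.sum_attach (Icc 1 (e + 1)) (fun i => f i (e + 2 - i) * seq f n1 i *
    seq f n1 (e + 2 - i))

/-- The polynomial of the exceptional row. -/
noncomputable def P (b : ℝ) : ℝ := ((b + 1) * b) ^ 2

/-- The rational function. -/
noncomputable def ff (a b : ℕ) : ℝ :=
  (1 / 32) * ((a : ℝ) * b / (a + b)) + P b / (1 + 32 * P b * ((a : ℝ) - 2) ^ 2) +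
    1024 / (1 + 32 * 1024 * (((a : ℝ) - 1) ^ 2 + ((b : ℝ) - 1) ^ 2))

theorem P_pos {b : ℕ} (hb : 1 ≤ b) : 0 < P b := by
  have : (0 : ℝ) < b := by exact_mod_cast hb
  unfold P; positivity

theorem ff_pos {a b : ℕ} (ha : 1 ≤ a) (hb : 1 ≤ b) : 0 < ff a b := by
  have ha' : (0 : ℝ) < a := by exact_mod_cast ha
  have hb' : (0 : ℝ) < b := by exact_mod_cast hb
  have := P_pos hb
  unfold ff; positivity

theorem ff_one : 1024 ≤ ff 1 1 := by
  unfold ff P; norm_num

theorem natdist {a : ℕ} {c : ℕ} (h : a ≠ c) : (1 : ℝ) ≤ ((a : ℝ) - c) ^ 2 := by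
  rcases Nat.lt_or_gt_of_ne h with h | h
  · have : (a : ℝ) + 1 ≤ c := by exact_mod_cast h
    nlinarith
  · have : (c : ℝ) + 1 ≤ a := by exact_mod_cast h
    nlinarith

/-- Terms outside the exceptional row are small. -/
theorem ff_le {a b : ℕ} (ha : 1 ≤ a) (hb : 1 ≤ b) (hab : 3 ≤ a + b) :
    ff a b ≤ (1 / 32) * ((a : ℝ) * b / (a + b) + 2) + (if a = 2 then P b else 0) := by
  have hP := P_pos hb
  have hG : 1024 / (1 + 32 * 1024 * (((a : ℝ) - 1) ^ 2 + ((b : ℝ) - 1) ^ 2)) ≤ 1 / 32 := by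
    rw [div_le_div_iff₀ (by positivity) (by norm_num)]
    have : (1 : ℝ) ≤ ((a : ℝ) - 1) ^ 2 + ((b : ℝ) - 1) ^ 2 := by
      by_cases h1 : a = 1
      · have h2 := natdist (a := b) (c := 1) (by omega)
        push_cast at h2
        nlinarith [sq_nonneg ((a : ℝ) - 1)]
      · have h2 := natdist (a := a) (c := 1) h1
        push_cast at h2
        nlinarith [sq_nonneg ((b : ℝ) - 1)]
    nlinarith
  unfold ff
  split_ifs with h
  · have e : P b / (1 + 32 * P b * ((a : ℝ) - 2) ^ 2) = P b := by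
      rw [h]; norm_num
    rw [e]; linarith
  · have h2 := natdist (a := a) (c := 2) h
    push_cast at h2
    have e : P b / (1 + 32 * P b * ((a : ℝ) - 2) ^ 2) ≤ 1 / 32 := by
      rw [div_le_div_iff₀ (by positivity) (by norm_num)]
      nlinarith
    linarith

theorem ff_row {b : ℕ} (hb : 1 ≤ b) : P b ≤ ff 2 b := by
  have hb' : (0 : ℝ) < b := by exact_mod_cast hb
  have hP := P_pos hb
  have e : P b / (1 + 32 * P b * (((2 : ℕ) : ℝ) - 2) ^ 2) = P b := by norm_num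
  unfold ff
  rw [e]
  have h1 : 0 ≤ (1 / 32 : ℝ) * ((((2 : ℕ) : ℝ)) * b / (((2 : ℕ) : ℝ) + b)) := by positivity
  have h2 : (0 : ℝ) ≤ 1024 / (1 + 32 * 1024 * ((((2 : ℕ) : ℝ) - 1) ^ 2 + ((b : ℝ) - 1) ^ 2)) := by
    positivity
  linarith

/-- The comparison sequence `((d-1)!)²`. -/
noncomputable def F (d : ℕ) : ℝ := (((d - 1).factorial : ℕ) : ℝ) ^ 2

theorem F_pos (d : ℕ) : 0 < F d := by unfold F; positivity

theorem F_step {d : ℕ} (hd : 3 ≤ d) : P ((d - 2 : ℕ) : ℝ) * F (d - 2) = F d := by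
  obtain ⟨e, rfl⟩ : ∃ e, d = e + 3 := ⟨d - 3, by omega⟩
  unfold P F
  have e1 : e + 3 - 2 = e + 1 := by omega
  have e2 : e + 1 - 1 = e := by omega
  have e3 : e + 3 - 1 = e + 2 := by omega
  rw [e1, e2, e3, Nat.factorial_succ, Nat.factorial_succ]
  push_cast; ring

theorem fact_mul_le {a : ℕ} (ha : 1 ≤ a) (b : ℕ) (hb : 1 ≤ b) :
    a.factorial * b.factorial ≤ (a + b - 1).factorial := by
  induction b, hb using Nat.le_induction with
  | base => simp
  | succ b hb ih =>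
    have e : a + (b + 1) - 1 = (a + b - 1) + 1 := by omega
    rw [e, Nat.factorial_succ b, Nat.factorial_succ (a + b - 1)]
    calc a.factorial * ((b + 1) * b.factorial) = (b + 1) * (a.factorial * b.factorial) := by ring
      _ ≤ (a + b - 1 + 1) * (a + b - 1).factorial := Nat.mul_le_mul (by omega) ih

theorem F_mul_mid {d i : ℕ} (h1 : 2 ≤ i) (h2 : i + 2 ≤ d) :
    F i * F (d - i) ≤ F d / (((d : ℝ) - 1) * (d - 2)) ^ 2 := by
  obtain ⟨e, rfl⟩ : ∃ e, d = e + 4 := ⟨d - 4, by omega⟩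
  have hp : (0 : ℝ) < (((e + 4 : ℕ) : ℝ) - 1) * (((e + 4 : ℕ) : ℝ) - 2) := by
    push_cast; have : (0 : ℝ) ≤ e := by positivity
    nlinarith
  rw [le_div_iff₀ (by positivity)]
  unfold F
  rw [← mul_pow, ← mul_pow]
  have h3 := fact_mul_le (a := i - 1) (by omega) (e + 4 - i - 1) (by omega)
  have e1 : i - 1 + (e + 4 - i - 1) - 1 = e + 1 := by omega
  rw [e1] at h3
  have h4 : (((i - 1).factorial : ℕ) : ℝ) * (((e + 4 - i - 1).factorial : ℕ) : ℝ) ≤
      (((e + 1).factorial : ℕ) : ℝ) := by exact_mod_cast h3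
  have h5 : (((e + 4 - 1).factorial : ℕ) : ℝ) = ((e : ℝ) + 3) * ((e : ℝ) + 2) *
      (((e + 1).factorial : ℕ) : ℝ) := by
    have e2 : e + 4 - 1 = e + 1 + 1 + 1 := by omega
    rw [e2, Nat.factorial_succ (e + 1 + 1), Nat.factorial_succ (e + 1)]
    push_cast; ring
  rw [h5]
  have h6 : 0 ≤ (((i - 1).factorial : ℕ) : ℝ) * (((e + 4 - i - 1).factorial : ℕ) : ℝ) *
      ((((e + 4 : ℕ) : ℝ) - 1) * (((e + 4 : ℕ) : ℝ) - 2)) := by positivity
  refine pow_le_pow_left₀ h6 ?_ 2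
  calc (((i - 1).factorial : ℕ) : ℝ) * (((e + 4 - i - 1).factorial : ℕ) : ℝ) *
        ((((e + 4 : ℕ) : ℝ) - 1) * (((e + 4 : ℕ) : ℝ) - 2))
      ≤ (((e + 1).factorial : ℕ) : ℝ) * ((((e + 4 : ℕ) : ℝ) - 1) * (((e + 4 : ℕ) : ℝ) - 2)) :=
        mul_le_mul_of_nonneg_right h4 hp.le
    _ = _ := by push_cast; ring

theorem F_mul_end {d : ℕ} (hd : 3 ≤ d) : F 1 * F (d - 1) = F d / ((d : ℝ) - 1) ^ 2 := by
  obtain ⟨e, rfl⟩ : ∃ e, d = e + 3 := ⟨d - 3, by omega⟩
  unfold F
  have e1 : e + 3 - 1 - 1 = e + 1 := by omega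
  have e2 : e + 3 - 1 = (e + 1) + 1 := by omega
  rw [e1, e2, Nat.factorial_succ (e + 1)]
  have : ((e : ℝ) + 2) ≠ 0 := by positivity
  have e3 : (((e + 3 : ℕ) : ℝ) - 1) = (e : ℝ) + 2 := by push_cast; ring
  rw [e3]
  push_cast
  simp only [Nat.sub_self, Nat.factorial_zero, Nat.cast_one, one_pow, one_mul]
  field_simp
  ring

/-- The error sum. -/
theorem err_le {d : ℕ} (hd : 3 ≤ d) :
    ∑ i ∈ Icc 1 (d - 1), (1 / 32) * ((i : ℝ) * ((d - i : ℕ) : ℝ) / (i + ((d - i : ℕ) : ℝ)) + 2) *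
      (F i * F (d - i)) ≤ F d / (4 * ((d : ℝ) - 1) ^ 2) := by
  have hset : Icc 1 (d - 1) = insert 1 (insert (d - 1) (Icc 2 (d - 2))) := by
    ext i; simp only [mem_Icc, mem_insert]; omega
  have hd' : (3 : ℝ) ≤ d := by exact_mod_cast hd
  have hFd := F_pos d
  have n1 : (1 : ℕ) ∉ insert (d - 1) (Icc 2 (d - 2)) := by
    simp only [mem_Icc, mem_insert]; omega
  have n2 : d - 1 ∉ Icc 2 (d - 2) := by
    simp only [mem_Icc]; omega
  rw [hset, sum_insert n1, sum_insert n2]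
  have cast1 : ((d - 1 : ℕ) : ℝ) = d - 1 := by push_cast [Nat.cast_sub (by omega : 1 ≤ d)]; ring
  have hA : (1 / 32) * (((1 : ℕ) : ℝ) * ((d - 1 : ℕ) : ℝ) / (((1 : ℕ) : ℝ) + ((d - 1 : ℕ) : ℝ)) + 2) *
      (F 1 * F (d - 1)) ≤ (1 / 32) * 3 * (F d / ((d : ℝ) - 1) ^ 2) := by
    rw [F_mul_end hd]
    refine mul_le_mul_of_nonneg_right ?_ (by positivity)
    refine mul_le_mul_of_nonneg_left ?_ (by norm_num)
    rw [cast1]
    have : ((1 : ℕ) : ℝ) * ((d : ℝ) - 1) / (((1 : ℕ) : ℝ) + ((d : ℝ) - 1)) ≤ 1 := by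
      rw [div_le_one (by push_cast; linarith)]; push_cast; linarith
    linarith
  have e1 : d - (d - 1) = 1 := by omega
  have hB : (1 / 32) * (((d - 1 : ℕ) : ℝ) * ((d - (d - 1) : ℕ) : ℝ) /
      (((d - 1 : ℕ) : ℝ) + ((d - (d - 1) : ℕ) : ℝ)) + 2) *
      (F (d - 1) * F (d - (d - 1))) ≤ (1 / 32) * 3 * (F d / ((d : ℝ) - 1) ^ 2) := by
    rw [e1, mul_comm (F (d - 1)), F_mul_end hd]
    refine mul_le_mul_of_nonneg_right ?_ (by positivity)
    refine mul_le_mul_of_nonneg_left ?_ (by norm_num)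
    rw [cast1]
    have : ((d : ℝ) - 1) * ((1 : ℕ) : ℝ) / (((d : ℝ) - 1) + ((1 : ℕ) : ℝ)) ≤ 1 := by
      rw [div_le_one (by push_cast; linarith)]; push_cast; linarith
    linarith
  have hC : ∑ i ∈ Icc 2 (d - 2), (1 / 32) * ((i : ℝ) * ((d - i : ℕ) : ℝ) /
      (i + ((d - i : ℕ) : ℝ)) + 2) * (F i * F (d - i)) ≤
      ((d : ℝ) - 3) * ((1 / 32) * (d / 4 + 2) * (F d / (((d : ℝ) - 1) * (d - 2)) ^ 2)) := by
    have hterm : ∀ i ∈ Icc 2 (d - 2), (1 / 32) * ((i : ℝ) * ((d - i : ℕ) : ℝ) /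
        (i + ((d - i : ℕ) : ℝ)) + 2) * (F i * F (d - i)) ≤
        (1 / 32) * (d / 4 + 2) * (F d / (((d : ℝ) - 1) * (d - 2)) ^ 2) := by
      intro i hi
      rw [mem_Icc] at hi
      have hci : ((d - i : ℕ) : ℝ) = d - i := by rw [Nat.cast_sub (by omega)]
      rw [hci]
      have hi0 : (0 : ℝ) ≤ i := by positivity
      have hi1 : (i : ℝ) ≤ d := by exact_mod_cast (by omega : i ≤ d)
      refine mul_le_mul ?_ (F_mul_mid (by omega) (by omega)) (mul_pos (F_pos _) (F_pos _)).le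
        (by positivity)
      refine mul_le_mul_of_nonneg_left ?_ (by norm_num)
      have : (i : ℝ) * (d - i) / (i + (d - i)) ≤ d / 4 := by
        rw [add_sub_cancel, div_le_div_iff₀ (by linarith) (by norm_num)]
        nlinarith [sq_nonneg ((d : ℝ) - 2 * i)]
      linarith
    refine (Finset.sum_le_card_nsmul _ _ _ hterm).trans ?_
    rw [nsmul_eq_mul]
    refine mul_le_mul_of_nonneg_right ?_ (by
      have : (0 : ℝ) < (((d : ℝ) - 1) * (d - 2)) ^ 2 := by
        have : (0 : ℝ) < ((d : ℝ) - 1) * (d - 2) := by nlinarith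
        positivity
      positivity)
    rw [Nat.card_Icc]
    have : ((d - 2 + 1 - 2 : ℕ) : ℝ) = d - 3 := by
      have : d - 2 + 1 - 2 = d - 3 := by omega
      rw [this, Nat.cast_sub hd]; norm_num
    rw [this]
  have hC' : ((d : ℝ) - 3) * ((1 / 32) * (d / 4 + 2) * (F d / (((d : ℝ) - 1) * (d - 2)) ^ 2)) ≤
      (1 / 32) * 2 * (F d / ((d : ℝ) - 1) ^ 2) := by
    have hq : (0 : ℝ) < (d : ℝ) - 2 := by linarith
    have hq1 : (0 : ℝ) < (d : ℝ) - 1 := by linarith
    have e : ((d : ℝ) - 3) * ((1 / 32) * (d / 4 + 2) * (F d / (((d : ℝ) - 1) * (d - 2)) ^ 2)) =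
        (1 / 32) * (((d : ℝ) - 3) * (d / 4 + 2) / ((d : ℝ) - 2) ^ 2) * (F d / ((d : ℝ) - 1) ^ 2) := by
      field_simp
    rw [e]
    refine mul_le_mul_of_nonneg_right ?_ (by positivity)
    refine mul_le_mul_of_nonneg_left ?_ (by norm_num)
    rw [div_le_iff₀ (by positivity)]
    nlinarith [sq_nonneg (14 * (d : ℝ) - 37)]
  have hfin : F d / (4 * ((d : ℝ) - 1) ^ 2) = (1 / 32) * 3 * (F d / ((d : ℝ) - 1) ^ 2) +
      ((1 / 32) * 3 * (F d / ((d : ℝ) - 1) ^ 2) + (1 / 32) * 2 * (F d / ((d : ℝ) - 1) ^ 2)) := by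
    have hq1 : (0 : ℝ) < (d : ℝ) - 1 := by linarith
    field_simp
    norm_num
  rw [hfin]
  linarith

section

variable {n : ℕ → ℝ} {δ : ℝ}

theorem n_pos (hrec : ∀ d, 2 ≤ d → n d = ∑ i ∈ Icc 1 (d - 1), ff i (d - i) * n i * n (d - i))
    (h1 : 0 < n 1) : ∀ d, 1 ≤ d → 0 < n d := by
  intro d
  induction d using Nat.strong_induction_on with
  | _ d ih =>
    intro hd
    rcases hd.eq_or_lt with h | h
    · rw [← h]; exact h1
    · rw [hrec d h]
      refine sum_pos (fun i hi => ?_) ⟨1, by rw [mem_Icc]; omega⟩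
      rw [mem_Icc] at hi
      exact mul_pos (mul_pos (ff_pos (by omega) (by omega)) (ih i (by omega) (by omega)))
        (ih _ (by omega) (by omega))

/-- The parity factor. -/
noncomputable def cc (δ : ℝ) (d : ℕ) : ℝ := if Even d then 1 else δ

theorem cc_mul (h0 : 0 < δ) (h1 : δ ≤ 1) {i j : ℕ} : cc δ i * cc δ j ≤ cc δ (i + j) := by
  unfold cc
  by_cases hi : Even i <;> by_cases hj : Even j <;> simp only [Nat.even_add, hi, hj, if_true,
    if_false, iff_self, iff_false, iff_true, not_true, not_false_iff, true_iff, false_iff]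
  · simp
  · simp
  · simp
  · nlinarith

theorem upper_bound
    (hrec : ∀ d, 2 ≤ d → n d = ∑ i ∈ Icc 1 (d - 1), ff i (d - i) * n i * n (d - i))
    (h0 : 0 < δ) (h1 : δ ≤ 1) (hn1 : n 1 = δ) (hn2 : n 2 = 1) :
    ∀ d, 1 ≤ d → n d ≤ (2 - 1 / (d : ℝ)) * cc δ d * F d := by
  have hpos := n_pos hrec (by rw [hn1]; exact h0)
  intro d
  induction d using Nat.strong_induction_on with
  | _ d ih =>
    intro hd
    by_cases hd1 : d = 1
    · subst hd1
      rw [hn1]; simp [cc, F]; norm_num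
    by_cases hd2 : d = 2
    · subst hd2
      rw [hn2]; simp [cc, F]; norm_num
    have hd3 : 3 ≤ d := by omega
    have hd' : (3 : ℝ) ≤ d := by exact_mod_cast hd3
    have hcd : 0 < cc δ d := by unfold cc; split_ifs <;> [exact one_pos; exact h0]
    have hFd := F_pos d
    have hub2 : ∀ i, 1 ≤ i → i < d → n i ≤ 2 * cc δ i * F i := by
      intro i hi hid
      refine (ih i hid hi).trans ?_
      have hci : 0 < cc δ i := by unfold cc; split_ifs <;> [exact one_pos; exact h0]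
      have : (2 - 1 / (i : ℝ)) ≤ 2 := by
        have : (0 : ℝ) ≤ 1 / i := by positivity
        linarith
      have hF := F_pos i
      gcongr
    have hterm : ∀ i ∈ Icc 1 (d - 1), ff i (d - i) * n i * n (d - i) ≤
        4 * cc δ d * ((1 / 32) * ((i : ℝ) * ((d - i : ℕ) : ℝ) / (i + ((d - i : ℕ) : ℝ)) + 2) *
          (F i * F (d - i))) + (if i = 2 then P ((d - 2 : ℕ) : ℝ) * n (d - 2) else 0) := by
      intro i hi
      rw [mem_Icc] at hi
      have hni := hpos i hi.1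
      have hnj := hpos (d - i) (by omega)
      have hff := ff_le (a := i) (b := d - i) hi.1 (by omega) (by omega)
      have hw : 0 ≤ (1 / 32) * ((i : ℝ) * ((d - i : ℕ) : ℝ) / (i + ((d - i : ℕ) : ℝ)) + 2) := by
        positivity
      have hprod : n i * n (d - i) ≤ 4 * cc δ d * (F i * F (d - i)) := by
        have a1 := hub2 i hi.1 (by omega)
        have a2 := hub2 (d - i) (by omega) (by omega)
        have hci : 0 < cc δ i := by unfold cc; split_ifs <;> [exact one_pos; exact h0]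
        have hcj : 0 < cc δ (d - i) := by unfold cc; split_ifs <;> [exact one_pos; exact h0]
        have hF1 := F_pos i
        have hF2 := F_pos (d - i)
        have hcc := cc_mul h0 h1 (i := i) (j := d - i)
        rw [show i + (d - i) = d by omega] at hcc
        calc n i * n (d - i) ≤ (2 * cc δ i * F i) * (2 * cc δ (d - i) * F (d - i)) :=
              mul_le_mul a1 a2 hnj.le (by positivity)
          _ = 4 * (cc δ i * cc δ (d - i)) * (F i * F (d - i)) := by ring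
          _ ≤ 4 * cc δ d * (F i * F (d - i)) := by gcongr
      have hmul : ff i (d - i) * n i * n (d - i) ≤
          ((1 / 32) * ((i : ℝ) * ((d - i : ℕ) : ℝ) / (i + ((d - i : ℕ) : ℝ)) + 2) +
            (if i = 2 then P ((d - i : ℕ) : ℝ) else 0)) * (n i * n (d - i)) := by
        rw [mul_assoc]
        exact mul_le_mul_of_nonneg_right hff (by positivity)
      refine hmul.trans ?_
      rw [add_mul]
      refine add_le_add ?_ ?_
      · calc _ ≤ (1 / 32) * ((i : ℝ) * ((d - i : ℕ) : ℝ) / (i + ((d - i : ℕ) : ℝ)) + 2) *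
              (4 * cc δ d * (F i * F (d - i))) := mul_le_mul_of_nonneg_left hprod hw
          _ = _ := by ring
      · split_ifs with h
        · subst h; rw [hn2, one_mul]
        · simp
    rw [hrec d (by omega)]
    refine (sum_le_sum hterm).trans ?_
    rw [sum_add_distrib, ← mul_sum]
    have h2mem : (2 : ℕ) ∈ Icc 1 (d - 1) := by rw [mem_Icc]; omega
    rw [sum_ite_eq' (Icc 1 (d - 1)) 2, if_pos h2mem]
    have herr := mul_le_mul_of_nonneg_left (err_le hd3) (by positivity : 0 ≤ 4 * cc δ d)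
    have hmain : P ((d - 2 : ℕ) : ℝ) * n (d - 2) ≤ (2 - 1 / ((d : ℝ) - 2)) * cc δ d * F d := by
      have a1 := ih (d - 2) (by omega) (by omega)
      have hccd : cc δ (d - 2) = cc δ d := by
        unfold cc
        have : Even (d - 2) ↔ Even d := by
          rw [Nat.even_sub (by omega)]; simp
        rw [if_congr this rfl rfl]
      have hc2 : ((d - 2 : ℕ) : ℝ) = d - 2 := by rw [Nat.cast_sub (by omega)]; norm_num
      rw [hccd, hc2] at a1
      have hP := P_pos (b := d - 2) (by omega)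
      calc P ((d - 2 : ℕ) : ℝ) * n (d - 2) ≤ P ((d - 2 : ℕ) : ℝ) *
            ((2 - 1 / ((d : ℝ) - 2)) * cc δ d * F (d - 2)) := mul_le_mul_of_nonneg_left a1 hP.le
        _ = (2 - 1 / ((d : ℝ) - 2)) * cc δ d * (P ((d - 2 : ℕ) : ℝ) * F (d - 2)) := by ring
        _ = _ := by rw [F_step hd3]
    refine (add_le_add herr hmain).trans ?_
    have e : 4 * cc δ d * (F d / (4 * ((d : ℝ) - 1) ^ 2)) +
        (2 - 1 / ((d : ℝ) - 2)) * cc δ d * F d =
        (1 / ((d : ℝ) - 1) ^ 2 + 2 - 1 / ((d : ℝ) - 2)) * (cc δ d * F d) := by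
      have : ((d : ℝ) - 1) ≠ 0 := by linarith
      have : ((d : ℝ) - 2) ≠ 0 := by linarith
      field_simp
      ring
    rw [e, mul_assoc]
    refine mul_le_mul_of_nonneg_right ?_ (by positivity)
    have hq : 1 / ((d : ℝ) - 1) ^ 2 ≤ 1 / ((d : ℝ) - 2) - 1 / d := by
      have hd2' : (0 : ℝ) < (d : ℝ) - 2 := by linarith
      have hd1' : (0 : ℝ) < (d : ℝ) - 1 := by linarith
      rw [div_sub_div _ _ hd2'.ne' (by linarith), div_le_div_iff₀ (by positivity) (by positivity)]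
      nlinarith
    linarith

theorem lower_bound
    (hrec : ∀ d, 2 ≤ d → n d = ∑ i ∈ Icc 1 (d - 1), ff i (d - i) * n i * n (d - i))
    (h0 : 0 < n 1) (hn2 : n 2 = 1) : ∀ m, 1 ≤ m → F (2 * m) ≤ n (2 * m) := by
  have hpos := n_pos hrec h0
  intro m hm
  induction m, hm using Nat.le_induction with
  | base => simp [F, hn2]
  | succ m hm ih =>
    rw [hrec (2 * (m + 1)) (by omega)]
    have hsingle : ff 2 (2 * (m + 1) - 2) * n 2 * n (2 * (m + 1) - 2) ≤
        ∑ i ∈ Icc 1 (2 * (m + 1) - 1), ff i (2 * (m + 1) - i) * n i * n (2 * (m + 1) - i) := by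
      refine single_le_sum (f := fun i => ff i (2 * (m + 1) - i) * n i * n (2 * (m + 1) - i))
        (fun i hi => ?_) (by rw [mem_Icc]; omega)
      rw [mem_Icc] at hi
      exact (mul_pos (mul_pos (ff_pos hi.1 (by omega)) (hpos i hi.1)) (hpos _ (by omega))).le
    refine le_trans ?_ hsingle
    rw [hn2, mul_one, ← F_step (d := 2 * (m + 1)) (by omega)]
    have e : 2 * (m + 1) - 2 = 2 * m := by omega
    rw [e]
    exact mul_le_mul (ff_row (by omega)) ih (F_pos _).le (ff_pos (by omega) (by omega)).le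

end

end Pool.Agent.X189.CR
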